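import Pool.Agent.W_MP_871f9b_an.Integral

/-!
In dimension three there are a compact star-shaped obstacle `V` with smooth boundary and connected
complement and an outgoing solution `u` of the Helmholtz equation outside `V`, with nonzero
Dirichlet data and nonzero Neumann data, whose integrated Lagrangian is positive.
-/

open scoped ContDiff Laplacian
open MeasureTheory

namespace Pool.Agent.Results.MP_871f9b_an.PositiveLagrangian

open Pool.Agent.W_MP_871f9b_an

theorem result :
    ∃ (V : Set E3) (u : E3 → ℂ),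
      IsCompact V ∧ StarConvex ℝ 0 V ∧ 0 ∈ interior V ∧ IsConnected Vᶜ ∧ HasSmoothBoundary V ∧
      (∀ x ∈ closure Vᶜ, ContDiffAt ℝ ∞ u x) ∧
      (∀ x ∈ Vᶜ, (Δ u) x + u x = 0) ∧
      IsRadiating u ∧
      (∃ x ∈ frontier V, u x ≠ 0) ∧
      (∃ x ∈ frontier V, ∃ ν : E3, IsOuterUnitNormal V x ν ∧ fderiv ℝ u x ν ≠ 0) ∧
      IntegrableOn (fun x => ‖u x‖ ^ 2 - gradSq u x) Vᶜ ∧
      0 < (1 / 2 : ℝ) * ∫ x in Vᶜ, (‖u x‖ ^ 2 - gradSq u x) := by
  refine ⟨obstacle, dipole, isCompact_obstacle, starConvex_obstacle, zero_mem_interior,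
    isConnected_compl_obstacle, hasSmoothBoundary_obstacle, ?_, ?_, isRadiating_dipole,
    ⟨pole, pole_mem_frontier, dipole_pole_ne_zero⟩,
    ⟨pole, pole_mem_frontier, _, isOuterUnitNormal_pole, normal_derivative_ne_zero⟩,
    integrableOn_density, mul_pos (by norm_num) integral_density_pos⟩
  · intro x hx
    exact contDiffAt_dipole (ne_zero_of_mem_closure_compl hx)
  · intro x hx
    rw [laplacian_dipole (ne_zero_of_mem_closure_compl (subset_closure hx))]
    ring

end Pool.Agent.Results.MP_871f9b_an.PositiveLagrangian
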